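import Pool.Agent.W186.AI.Spec
import Pool.Agent.W755.HaightA

set_option autoImplicit false

namespace Pool.Agent.W702.AI.KRO

open Complex Filter Topology
open scoped Real
open Pool.Agent.W186.AI

theorem key (z : ℂ) (hz : ‖z‖ = 1) (p : Nat.Primes) (t : ℝ) (n : ℤ) (ε : ℝ)
    (h : |t * Real.log ((p : ℕ) : ℝ) - (-(arg z) / (2 * π)) - n| < ε) :
    ‖ph (2 * π * t) p - z‖ ≤ 2 * π * ε := by
  set δ : ℝ := t * Real.log ((p : ℕ) : ℝ) - (-(arg z) / (2 * π)) - n with hδ
  have hp0 : ((p : ℕ) : ℂ) ≠ 0 := by exact_mod_cast p.2.ne_zero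
  have hpi : (π : ℂ) ≠ 0 := by exact_mod_cast Real.pi_ne_zero
  have hz1 : z = cexp (I * (arg z : ℂ)) := by
    have := Complex.norm_mul_exp_arg_mul_I z
    rw [hz] at this
    rw [mul_comm I]; simpa using this.symm
  have hph : ph (2 * π * t) p = z * cexp (I * ((-(2 * π * δ) : ℝ) : ℂ)) := by
    unfold ph
    rw [Complex.cpow_def_of_ne_zero hp0]
    have hlog : Complex.log ((p : ℕ) : ℂ) = ((Real.log ((p : ℕ) : ℝ) : ℝ) : ℂ) := by
      rw [← Complex.ofReal_natCast, Complex.ofReal_log (Nat.cast_nonneg _)]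
    rw [hlog]
    conv_rhs => rw [hz1]
    rw [← Complex.exp_add]
    rw [Complex.exp_eq_exp_iff_exists_int]
    refine ⟨-n, ?_⟩
    rw [hδ]
    push_cast
    field_simp
    ring
  rw [hph]
  have h1 : z * cexp (I * ((-(2 * π * δ) : ℝ) : ℂ)) - z =
      z * (cexp (I * ((-(2 * π * δ) : ℝ) : ℂ)) - 1) := by ring
  rw [h1, norm_mul, hz, one_mul]
  refine (Real.norm_exp_I_mul_ofReal_sub_one_le).trans ?_
  rw [Real.norm_eq_abs, abs_neg, abs_mul, abs_of_pos (by positivity : (0:ℝ) < 2 * π)]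
  exact mul_le_mul_of_nonneg_left h.le (by positivity)

theorem main : S_KRO := by
  intro ω hω
  classical
  let β : ℕ → ℝ := fun m => if h : m.Prime then -(arg (ω ⟨m, h⟩)) / (2 * π) else 0
  have H := fun k : ℕ => Pool.Agent.W755.Haight.phases k β (1 / ((k : ℝ) + 1)) (by positivity) k
  choose t ht hn using H
  refine ⟨fun k => 2 * π * t k, ?_, ?_⟩
  · have h1 : Tendsto t atTop atTop :=
      tendsto_atTop_mono (fun k => (ht k).le) tendsto_natCast_atTop_atTop
    exact h1.const_mul_atTop (by positivity)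
  · rw [tendsto_pi_nhds]
    intro p
    rw [tendsto_iff_norm_sub_tendsto_zero]
    have h2 : Tendsto (fun k : ℕ => 2 * π * (1 / ((k : ℝ) + 1))) atTop (𝓝 0) := by
      have := (tendsto_one_div_add_atTop_nhds_zero_nat (𝕜 := ℝ)).const_mul (2 * π)
      simpa using this
    refine squeeze_zero' (Eventually.of_forall fun k => norm_nonneg _) ?_ h2
    filter_upwards [eventually_gt_atTop (p : ℕ)] with k hk
    obtain ⟨n, hn'⟩ := hn k (p : ℕ) p.2 hk
    have hβ : β (p : ℕ) = -(arg (ω p)) / (2 * π) := by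
      have : β (p : ℕ) = -(arg (ω ⟨(p : ℕ), p.2⟩)) / (2 * π) := dif_pos p.2
      exact this
    rw [hβ] at hn'
    exact key (ω p) (hω p) p (t k) n _ hn'

end Pool.Agent.W702.AI.KRO
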